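import Pool.Agent.Helper19.TW.Cut

/-!
# Truncations of packed lattices are packed
-/

set_option autoImplicit false
set_option linter.unusedSectionVars false

namespace Pool.Agent.Helper50.TW

open Pool.Agent.Helper28.BPack Pool.Agent.Helper19.TW

section enum

variable {L : Type}

open Classical in
/-- the subset of `E` with a given set of indices -/
noncomputable def img (E : Finset L) (S : Set (Fin E.card)) : Finset L :=
  (Finset.univ.filter (fun j => j ∈ S)).image (fun j => (E.equivFin.symm j).1)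

theorem mem_img {E : Finset L} {S : Set (Fin E.card)} {a : L} :
    a ∈ img E S ↔ ∃ j ∈ S, (E.equivFin.symm j).1 = a := by
  classical
  unfold img
  rw [Finset.mem_image]
  constructor
  · rintro ⟨j, hj, rfl⟩
    exact ⟨j, (Finset.mem_filter.mp hj).2, rfl⟩
  · rintro ⟨j, hj, rfl⟩
    exact ⟨j, Finset.mem_filter.mpr ⟨Finset.mem_univ _, hj⟩, rfl⟩

theorem img_sub (E : Finset L) (S : Set (Fin E.card)) : img E S ⊆ E := by
  intro a ha
  obtain ⟨j, _, rfl⟩ := mem_img.mp ha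
  exact (E.equivFin.symm j).2

theorem en_inj {E : Finset L} {i j : Fin E.card}
    (h : (E.equivFin.symm i).1 = (E.equivFin.symm j).1) : i = j :=
  E.equivFin.symm.injective (Subtype.ext h)

theorem img_inj {E : Finset L} {S S' : Set (Fin E.card)} (h : img E S = img E S') : S = S' := by
  ext j
  constructor
  · intro hj
    have h1 : (E.equivFin.symm j).1 ∈ img E S := mem_img.mpr ⟨j, hj, rfl⟩
    rw [h] at h1
    obtain ⟨i, hi, hij⟩ := mem_img.mp h1
    rw [← en_inj hij]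
    exact hi
  · intro hj
    have h1 : (E.equivFin.symm j).1 ∈ img E S' := mem_img.mpr ⟨j, hj, rfl⟩
    rw [← h] at h1
    obtain ⟨i, hi, hij⟩ := mem_img.mp h1
    rw [← en_inj hij]
    exact hi

theorem img_surj {E A : Finset L} (h : A ⊆ E) : ∃ S, img E S = A := by
  refine ⟨{j | (E.equivFin.symm j).1 ∈ A}, ?_⟩
  ext a
  rw [mem_img]
  constructor
  · rintro ⟨j, hj, rfl⟩
    exact hj
  · intro ha
    have h1 : (E.equivFin.symm (E.equivFin ⟨a, h ha⟩)).1 = a := by
      rw [Equiv.symm_apply_apply]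
    refine ⟨E.equivFin ⟨a, h ha⟩, ?_, h1⟩
    change (E.equivFin.symm (E.equivFin ⟨a, h ha⟩)).1 ∈ A
    rw [h1]
    exact ha

theorem img_univ (E : Finset L) : img E Set.univ = E := by
  obtain ⟨S, hS⟩ := img_surj (Finset.Subset.refl E)
  apply Finset.Subset.antisymm (img_sub E _)
  intro a ha
  rw [← hS] at ha
  obtain ⟨j, _, rfl⟩ := mem_img.mp ha
  exact mem_img.mpr ⟨j, Set.mem_univ _, rfl⟩

theorem img_empty (E : Finset L) : img E ∅ = ∅ := by
  ext a
  rw [mem_img]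
  simp

theorem img_insert [DecidableEq L] {E : Finset L} {S : Set (Fin E.card)} {j : Fin E.card}
    (hj : j ∉ S) : img E (insert j S) = insert (E.equivFin.symm j).1 (img E S) ∧
      (E.equivFin.symm j).1 ∉ img E S := by
  constructor
  · ext a
    rw [mem_img, Finset.mem_insert, mem_img]
    constructor
    · rintro ⟨i, hi, rfl⟩
      rcases Set.mem_insert_iff.mp hi with h | h
      · left
        rw [h]
      · exact Or.inr ⟨i, h, rfl⟩
    · rintro (h | ⟨i, hi, rfl⟩)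
      · exact ⟨j, Set.mem_insert _ _, h.symm⟩
      · exact ⟨i, Set.mem_insert_of_mem _ hi, rfl⟩
  · intro h
    obtain ⟨i, hi, hij⟩ := mem_img.mp h
    exact hj (en_inj hij ▸ hi)

end enum

section piece

variable {L : Type} [Lattice L] [BoundedOrder L] [Finite L] [IsUpperModularLattice L]

/-- the map of a piece -/
noncomputable def v (q : L × Finset L) (S : Set (Fin q.2.card)) : L := jn q.1 (img q.2 S)

theorem v_el (q : L × Finset L) (S : Set (Fin q.2.card)) : El q (v q S) :=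
  ⟨img q.2 S, img_sub _ _, rfl⟩

theorem el_v {q : L × Finset L} {z : L} (h : El q z) : ∃ S, v q S = z := by
  obtain ⟨A, hA, rfl⟩ := h
  obtain ⟨S, hS⟩ := img_surj hA
  exact ⟨S, by rw [v, hS]⟩

theorem v_inj {q : L × Finset L} (h : PG q) {S S' : Set (Fin q.2.card)} (he : v q S = v q S') :
    S = S' :=
  img_inj (h.inj (img_sub _ _) (img_sub _ _) he)

theorem v_rk {q : L × Finset L} (h : PG q) (S : Set (Fin q.2.card)) :
    rk (v q S) = rk q.1 + (img q.2 S).card := h.sub (img_sub _ _)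

theorem v_bot (q : L × Finset L) : v q ⊥ = q.1 := by
  have h1 : (⊥ : Set (Fin q.2.card)) = ∅ := rfl
  rw [v, h1, img_empty, jn_empty]

theorem v_top (q : L × Finset L) : v q ⊤ = jn q.1 q.2 := by
  have h1 : (⊤ : Set (Fin q.2.card)) = Set.univ := rfl
  rw [v, h1, img_univ]

theorem v_cov {q : L × Finset L} (h : PG q) {S S' : Set (Fin q.2.card)} (hc : S ⋖ S') :
    v q S ⋖ v q S' ∧ rk (v q S') = rk (v q S) + 1 := by
  classical
  obtain ⟨j, hj, hjS⟩ := Set.covBy_iff_exists_insert.mp hc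
  obtain ⟨h1, h2⟩ := img_insert hj
  have h3 : rk (v q S') = rk (v q S) + 1 := by
    rw [v_rk h, v_rk h, ← hjS, h1, Finset.card_insert_of_notMem h2]
    ring
  refine ⟨covBy_of_rk ?_ h3, h3⟩
  rw [v, v, ← hjS, h1]
  exact jn_mono _ (Finset.subset_insert _ _)

end piece

/-- Reindexing a packing by `Fin t`. -/
theorem reindex {T : Type} [Preorder T] (tp : T) {ι : Type} [Finite ι] (d : ι → ℕ)
    (Φ : ∀ i, Set (Fin (d i)) → T) (h1 : ∀ i, Function.Injective (Φ i))
    (h2 : ∀ i (a b : Set (Fin (d i))), a ⋖ b → Φ i a ⋖ Φ i b)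
    (h3 : ∀ i, Order.height tp ≤ Order.height (Φ i ⊥) + Order.height (Φ i ⊤))
    (h4 : ∀ x, ∃ i S, Φ i S = x)
    (h5 : ∀ i S i' S', Φ i S = Φ i' S' → i = i' ∧ HEq S S') :
    ∃ (t : ℕ) (n : Fin t → ℕ) (φ : ∀ i : Fin t, Set (Fin (n i)) → T),
      (∀ i, Function.Injective (φ i)) ∧
      (∀ i (a b : Set (Fin (n i))), a ⋖ b → φ i a ⋖ φ i b) ∧
      (∀ i, Order.height tp ≤ Order.height (φ i ⊥) + Order.height (φ i ⊤)) ∧
      (∀ x, ∃! p : (Σ i : Fin t, Set (Fin (n i))), φ p.1 p.2 = x) := by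
  obtain ⟨t, ⟨σ⟩⟩ := Finite.exists_equiv_fin ι
  refine ⟨t, fun i => d (σ.symm i), fun i => Φ (σ.symm i), fun i => h1 _, fun i => h2 _,
    fun i => h3 _, ?_⟩
  intro x
  obtain ⟨i, S, hS⟩ := h4 x
  obtain ⟨j, rfl⟩ := σ.symm.surjective i
  refine ⟨⟨j, S⟩, hS, ?_⟩
  rintro ⟨j', S'⟩ hS'
  obtain ⟨h6, h7⟩ := h5 _ _ _ _ (hS'.trans hS.symm)
  have h8 : j' = j := σ.symm.injective h6
  subst h8
  have h9 : S' = S := eq_of_heq h7
  rw [h9]

section main

variable {L : Type} [Lattice L] [BoundedOrder L] [Fintype L] [IsUpperModularLattice L]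

/-- the truncated lattice -/
abbrev Tr (L : Type) [Lattice L] [BoundedOrder L] (r : ℕ) : Type :=
  {x : L // Order.height x < (r : ℕ∞) ∨ x = ⊤}

theorem tr_rk {r : ℕ} {x : L} (h : rk x < r) : Order.height x < (r : ℕ∞) ∨ x = ⊤ := by
  left
  rw [← coe_rk]
  exact_mod_cast h

theorem rk_of_tr {r : ℕ} (x : Tr L r) (h : x.1 ≠ ⊤) : rk x.1 < min r (rk (⊤ : L)) := by
  rcases x.2 with h1 | h1
  · rw [← coe_rk] at h1
    have h2 : rk x.1 < r := by exact_mod_cast h1
    have h3 := rk_lt (lt_top_iff_ne_top.mpr h)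
    omega
  · exact absurd h1 h

theorem height_low {r : ℕ} : ∀ (m : ℕ) (x : Tr L r), x.1 ≠ ⊤ → rk x.1 = m →
    (m : ℕ∞) ≤ Order.height x := by
  intro m
  induction m with
  | zero => intro x _ _; simp
  | succ m ih =>
    intro x hx hm
    have h1 : (⊥ : L) < x.1 := by
      rw [bot_lt_iff_ne_bot]
      intro h
      rw [h, rk_bot] at hm
      omega
    obtain ⟨y, -, hy⟩ := exists_le_covBy_of_lt h1
    have h2 := rk_covBy hy
    have h3 := rk_of_tr x hx
    have h4 : rk y < r := by omega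
    have h5 : y ≠ ⊤ := by
      intro h
      rw [h] at hy
      exact not_top_lt hy.lt
    have h6 := ih ⟨y, tr_rk h4⟩ h5 (by change rk y = m; omega)
    have h7 : (⟨y, tr_rk h4⟩ : Tr L r) < x := hy.lt
    have h8 := Order.height_add_one_le h7
    refine le_trans ?_ h8
    push_cast
    gcongr

theorem height_top {r : ℕ} (h : Order.height (⊤ : L) < (r : ℕ∞) ∨ (⊤ : L) = ⊤) :
    Order.height (⟨⊤, h⟩ : Tr L r) ≤ (min r (rk (⊤ : L)) : ℕ) := by
  classical
  let g : Tr L r → ℕ := fun x => if x.1 = ⊤ then min r (rk (⊤ : L)) else rk x.1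
  have hg : StrictMono g := by
    intro x y hxy
    have h1 : x.1 < y.1 := hxy
    have h2 : x.1 ≠ ⊤ := fun h => not_top_lt (h ▸ h1)
    have h3 := rk_of_tr x h2
    by_cases hy : y.1 = ⊤
    · simp only [g, if_neg h2, if_pos hy]
      exact h3
    · simp only [g, if_neg h2, if_neg hy]
      exact rk_lt h1
  have h1 := Order.height_le_height_apply_of_strictMono g hg ⟨⊤, h⟩
  refine h1.trans (le_of_eq ?_)
  rw [Order.height_nat]
  simp only [g, if_pos rfl]

theorem cov_tr {r : ℕ} {x y : Tr L r} (h : x.1 ⋖ y.1) : x ⋖ y :=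
  ⟨h.lt, fun z h1 h2 => h.2 (show x.1 < z.1 from h1) (show z.1 < y.1 from h2)⟩

theorem cov_tr_top {r : ℕ} {x y : Tr L r} (hx : x.1 ≠ ⊤)
    (hr : min r (rk (⊤ : L)) ≤ rk x.1 + 1) (hy : y.1 = ⊤) : x ⋖ y := by
  refine ⟨?_, ?_⟩
  · change x.1 < y.1
    rw [hy]
    exact lt_top_iff_ne_top.mpr hx
  · intro z h1 h2
    have h3 : z.1 ≠ ⊤ := by
      intro h
      have h4 : z.1 < y.1 := h2
      rw [h] at h4
      exact not_top_lt h4
    have h4 := rk_of_tr z h3
    have h5 := rk_lt (show x.1 < z.1 from h1)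
    omega

/-- Cutting a packing down to the elements of small rank. -/
theorem trunc_fam (Q : Finset (L × Finset L)) (hQ : Fam Q (fun _ => True))
    (hq : ∀ q ∈ Q, rk (⊤ : L) ≤ rk q.1 + rk (jn q.1 q.2)) (s : ℕ) (hs1 : 1 ≤ s)
    (hsn : s ≤ rk (⊤ : L)) :
    ∃ (E' : Finset L) (Q' : Finset (L × Finset L)), PG ((⊥, E') : L × Finset L) ∧ E'.card = s ∧
      Fam Q' (fun z => rk z ≤ s - 1 ∧ ¬ El (⊥, E') z) ∧
      ∀ q ∈ Q', s ≤ rk q.1 + rk (jn q.1 q.2) := by
  classical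
  obtain ⟨q0, hq0, hb⟩ := (hQ.cov ⊥).mp trivial
  have hb1 : q0.1 = ⊥ := le_bot_iff.mp hb.ge
  have hpg := hQ.pg q0 hq0
  have h1 := hq q0 hq0
  have h2 := hpg.2
  rw [hb1, rk_bot] at h1 h2
  have hcard : s ≤ q0.2.card := by omega
  obtain ⟨E', hE', hE'c⟩ := Finset.exists_subset_card_eq hcard
  have hun : E' ∪ (q0.2 \ E') = q0.2 := Finset.union_sdiff_of_subset hE'
  have hq0e : ((⊥, E' ∪ (q0.2 \ E')) : L × Finset L) = q0 := by
    rw [hun, ← hb1]
  have hpg1 : PG ((⊥, E' ∪ (q0.2 \ E')) : L × Finset L) := by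
    rw [hq0e]
    exact hpg
  have hpgE : PG ((⊥, E') : L × Finset L) := hpg1.mono Finset.subset_union_left
  obtain ⟨Q0, hQ0, hQ0r⟩ := tcut2 E' (q0.2 \ E') ⊥ (s - 1) hpg1 Finset.disjoint_sdiff (by omega)
  rw [hq0e, rk_bot] at hQ0
  rw [rk_bot] at hQ0r
  have hElE : ∀ z, El (⊥, E') z → El q0 z := by
    rintro z ⟨A, hA, rfl⟩
    exact ⟨A, hA.trans hE', by rw [hb1]⟩
  have hex : ∀ q : L × Finset L, ∃ G : Finset (L × Finset L), q ∈ Q → rk q.1 ≤ s - 1 →
      Fam G (fun z => El q z ∧ rk z ≤ s - 1) ∧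
      ∀ q' ∈ G, q.1 ≤ q'.1 ∧ (rk (jn q.1 q.2) ≤ rk (jn q'.1 q'.2) ∨ s - 1 ≤ rk (jn q'.1 q'.2)) := by
    intro q
    by_cases h : q ∈ Q ∧ rk q.1 ≤ s - 1
    · obtain ⟨G, hG, hG'⟩ := tcut q.2 q.1 (s - 1 - rk q.1) (hQ.pg q h.1)
      have h3 : rk q.1 + (s - 1 - rk q.1) = s - 1 := by omega
      rw [h3] at hG hG'
      exact ⟨G, fun _ _ => ⟨hG, hG'⟩⟩
    · exact ⟨∅, fun h3 h4 => (h ⟨h3, h4⟩).elim⟩
  choose G hG using hex
  let Q1 := (Q.erase q0).filter (fun q => rk q.1 ≤ s - 1)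
  have hQ1 : ∀ q, q ∈ Q1 ↔ q ≠ q0 ∧ q ∈ Q ∧ rk q.1 ≤ s - 1 := by
    intro q
    simp only [Q1, Finset.mem_filter, Finset.mem_erase, and_assoc]
  have hF1 := Fam.biUnion Q1 G (fun q z => El q z ∧ rk z ≤ s - 1)
    (fun q h => (hG q ((hQ1 q).mp h).2.1 ((hQ1 q).mp h).2.2).1)
    (fun q h q' h' z hz hz' => hQ.dis q ((hQ1 q).mp h).2.1 q' ((hQ1 q').mp h').2.1 z hz.1 hz'.1)
  refine ⟨E', Q0 ∪ Q1.biUnion G, hpgE, hE'c, (hQ0.union hF1 ?_).congr ?_, ?_⟩
  · rintro z ⟨hz, -, -⟩ ⟨q, hqq, hz', -⟩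
    exact ((hQ1 q).mp hqq).1 (hQ.dis q ((hQ1 q).mp hqq).2.1 q0 hq0 z hz' hz)
  · intro z
    constructor
    · rintro (⟨_, h4, h5⟩ | ⟨q, hqq, hz', hz''⟩)
      · exact ⟨by simpa using h5, h4⟩
      · refine ⟨hz'', fun h6 => ?_⟩
        exact ((hQ1 q).mp hqq).1 (hQ.dis q ((hQ1 q).mp hqq).2.1 q0 hq0 z hz' (hElE z h6))
    · rintro ⟨h4, h5⟩
      obtain ⟨q, hqq, hz⟩ := (hQ.cov z).mp trivial
      by_cases hqe : q = q0
      · left
        rw [hqe] at hz
        exact ⟨hz, h5, by simpa using h4⟩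
      · right
        refine ⟨q, (hQ1 q).mpr ⟨hqe, hqq, ?_⟩, hz, h4⟩
        exact (rk_mono hz.ge).trans h4
  · intro q' hq'
    rcases Finset.mem_union.mp hq' with hq' | hq'
    · have h4 := hQ0r q' hq'
      omega
    · obtain ⟨q, hqq, hq'⟩ := Finset.mem_biUnion.mp hq'
      obtain ⟨hne, hqQ, hqs⟩ := (hQ1 q).mp hqq
      obtain ⟨h4, h5⟩ := (hG q hqQ hqs).2 q' hq'
      have h6 := rk_mono h4
      have h7 := hq q hqQ
      have h8 : 1 ≤ rk q.1 := by
        by_contra hcon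
        have h9 : rk q.1 ≤ rk (⊥ : L) := by rw [rk_bot]; omega
        have h10 : (⊥ : L) = q.1 := eq_of_le_of_rk bot_le h9
        have h11 : El q ⊥ := by
          rw [h10]
          exact El.bot q
        exact hne (hQ.dis q hqQ q0 hq0 ⊥ h11 hb)
      omega

open Classical in
/-- the values on the special piece of the truncated packing -/
noncomputable def pn (E' : Finset L) (S : Set (Fin E'.card)) : L :=
  if S = Set.univ then ⊤ else v (⊥, E') S

theorem pn_univ (E' : Finset L) : pn E' Set.univ = ⊤ := if_pos rfl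

theorem pn_ne (E' : Finset L) {S : Set (Fin E'.card)} (h : S ≠ Set.univ) :
    pn E' S = v (⊥, E') S := if_neg h

/-- the values on the pieces of the truncated packing -/
noncomputable def pv (E' : Finset L) (Q' : Finset (L × Finset L)) :
    ∀ o : Option {q // q ∈ Q'}, Set (Fin (Option.elim o E'.card (fun q => q.1.2.card))) → L
  | none => fun S => pn E' S
  | some q => fun S => v q.1 S

theorem trunc_packing {L : Type} [Lattice L] [BoundedOrder L] [Fintype L]
    [IsUpperModularLattice L] (Q : Finset (L × Finset L)) (hQ : Fam Q (fun _ => True))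
    (hq : ∀ q ∈ Q, rk (⊤ : L) ≤ rk q.1 + rk (jn q.1 q.2)) (r : ℕ) (hr : 1 ≤ r) :
    ∃ (t : ℕ) (n : Fin t → ℕ)
      (φ : ∀ i : Fin t, Set (Fin (n i)) → {x : L // Order.height x < (r : ℕ∞) ∨ x = ⊤}),
      (∀ i, Function.Injective (φ i)) ∧
      (∀ i (a b : Set (Fin (n i))), a ⋖ b → φ i a ⋖ φ i b) ∧
      (∀ i, Order.height (⟨⊤, Or.inr rfl⟩ : {x : L // Order.height x < (r : ℕ∞) ∨ x = ⊤}) ≤
        Order.height (φ i ⊥) + Order.height (φ i ⊤)) ∧
      (∀ x, ∃! p : (Σ i : Fin t, Set (Fin (n i))), φ p.1 p.2 = x) := by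
  classical
  by_cases hn0 : rk (⊤ : L) = 0
  · have hall : ∀ x : L, x = ⊤ := by
      intro x
      exact eq_of_le_of_rk le_top (by omega)
    have hallT : ∀ x y : Tr L r, x = y := by
      intro x y
      apply Subtype.ext
      rw [hall x.1, hall y.1]
    refine reindex (⟨⊤, Or.inr rfl⟩ : Tr L r) (ι := Unit) (fun _ => 0)
      (fun _ _ => ⟨⊤, Or.inr rfl⟩) ?_ ?_ ?_ ?_ ?_
    · intro _ a b _
      exact Subsingleton.elim a b
    · intro _ a b hab
      exact absurd (Subsingleton.elim a b) hab.lt.ne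
    · intro _
      exact le_add_left (le_refl _)
    · intro x
      exact ⟨(), ⊥, hallT _ _⟩
    · intro _ S _ S' _
      exact ⟨rfl, heq_of_eq (Subsingleton.elim S S')⟩
  have hs1 : 1 ≤ min r (rk (⊤ : L)) := by omega
  obtain ⟨E', Q', hpg, hcard, hF, hrk⟩ :=
    trunc_fam Q hQ hq (min r (rk (⊤ : L))) hs1 (min_le_right _ _)
  have htop : ∀ z : L, rk z < min r (rk (⊤ : L)) → z ≠ ⊤ := by
    rintro z hz rfl
    omega
  -- ranks on the special piece
  have hnone : ∀ S : Set (Fin E'.card), S ≠ Set.univ →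
      rk (v ((⊥, E') : L × Finset L) S) < min r (rk (⊤ : L)) := by
    intro S hS
    rw [v_rk hpg]
    change rk (⊥ : L) + (img E' S).card < _
    rw [rk_bot, ← hcard, zero_add]
    refine Finset.card_lt_card (lt_of_le_of_ne (img_sub E' S) ?_)
    intro h
    exact hS (img_inj (h.trans (img_univ E').symm))
  have huniv : rk (v ((⊥, E') : L × Finset L) Set.univ) = min r (rk (⊤ : L)) := by
    rw [v_rk hpg]
    change rk (⊥ : L) + (img E' Set.univ).card = _
    rw [rk_bot, img_univ, hcard, zero_add]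
  have hsome : ∀ (q : {q // q ∈ Q'}) (S : Set (Fin q.1.2.card)),
      rk (v q.1 S) < min r (rk (⊤ : L)) ∧ ¬ El (⊥, E') (v q.1 S) := by
    intro q S
    have h1 := (hF.cov _).mpr ⟨q.1, q.2, v_el q.1 S⟩
    exact ⟨by omega, h1.2⟩
  have hvn : ∀ S : Set (Fin E'.card), Order.height (pn E' S) < (r : ℕ∞) ∨ pn E' S = ⊤ := by
    intro S
    by_cases h : S = Set.univ
    · rw [h]
      exact Or.inr (pn_univ E')
    · rw [pn_ne E' h]
      exact tr_rk (lt_of_lt_of_le (hnone S h) (min_le_left _ _))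
  have hvs : ∀ (q : {q // q ∈ Q'}) (S : Set (Fin q.1.2.card)),
      Order.height (v q.1 S) < (r : ℕ∞) ∨ v q.1 S = ⊤ :=
    fun q S => tr_rk (lt_of_lt_of_le (hsome q S).1 (min_le_left _ _))
  have hval : ∀ (o : Option {q // q ∈ Q'}) (S), Order.height (pv E' Q' o S) < (r : ℕ∞) ∨
      pv E' Q' o S = ⊤ := by
    rintro (_ | q) S
    · exact hvn S
    · exact hvs q S
  have hnn : ∀ S S' : Set (Fin E'.card), pn E' S = pn E' S' → S = S' := by
    intro S S' h
    by_cases h1 : S = Set.univ <;> by_cases h2 : S' = Set.univ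
    · rw [h1, h2]
    · rw [h1, pn_univ, pn_ne E' h2] at h
      exact absurd h.symm (htop _ (hnone S' h2))
    · rw [h2, pn_univ, pn_ne E' h1] at h
      exact absurd h (htop _ (hnone S h1))
    · rw [pn_ne E' h1, pn_ne E' h2] at h
      exact v_inj hpg h
  have hns : ∀ (S : Set (Fin E'.card)) (q : {q // q ∈ Q'}) (S' : Set (Fin q.1.2.card)),
      pn E' S ≠ v q.1 S' := by
    intro S q S' h
    by_cases h1 : S = Set.univ
    · rw [h1, pn_univ] at h
      exact absurd h.symm (htop _ (hsome q S').1)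
    · rw [pn_ne E' h1] at h
      exact (hsome q S').2 (h ▸ v_el (⊥, E') S)
  have hss : ∀ (q : {q // q ∈ Q'}) (S : Set (Fin q.1.2.card)) (q' : {q // q ∈ Q'})
      (S' : Set (Fin q'.1.2.card)), v q.1 S = v q'.1 S' → q = q' ∧ HEq S S' := by
    intro q S q' S' h
    have h1 : q.1 = q'.1 := hF.dis q.1 q.2 q'.1 q'.2 _ (v_el q.1 S) (h ▸ v_el q'.1 S')
    have h2 : q = q' := Subtype.ext h1
    subst h2
    exact ⟨rfl, heq_of_eq (v_inj (hF.pg q.1 q.2) h)⟩
  have hinj : ∀ o S o' S', pv E' Q' o S = pv E' Q' o' S' → o = o' ∧ HEq S S' := by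
    rintro (_ | q) S (_ | q') S' h
    · exact ⟨rfl, heq_of_eq (hnn S S' h)⟩
    · exact absurd h (hns S q' S')
    · exact absurd h.symm (hns S' q S)
    · obtain ⟨h1, h2⟩ := hss q S q' S' h
      exact ⟨congrArg some h1, h2⟩
  refine reindex (⟨⊤, Or.inr rfl⟩ : Tr L r) (ι := Option {q // q ∈ Q'})
    (fun o => Option.elim o E'.card (fun q => q.1.2.card))
    (fun o S => ⟨pv E' Q' o S, hval o S⟩) ?_ ?_ ?_ ?_ ?_
  · intro o S S' h
    exact eq_of_heq (hinj o S o S' (congrArg Subtype.val h)).2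
  · rintro (_ | q) a b hab
    · change Set (Fin E'.card) at a b
      change (⟨pn E' a, hvn a⟩ : Tr L r) ⋖ ⟨pn E' b, hvn b⟩
      have ha : a ≠ Set.univ := by
        rintro rfl
        exact not_top_lt hab.lt
      obtain ⟨h1, h2⟩ := v_cov hpg hab
      by_cases hb : b = Set.univ
      · apply cov_tr_top
        · change pn E' a ≠ ⊤
          rw [pn_ne E' ha]
          exact htop _ (hnone a ha)
        · change min r (rk (⊤ : L)) ≤ rk (pn E' a) + 1
          rw [pn_ne E' ha, ← huniv, ← hb, h2]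
        · change pn E' b = ⊤
          rw [hb, pn_univ]
      · apply cov_tr
        change pn E' a ⋖ pn E' b
        rw [pn_ne E' ha, pn_ne E' hb]
        exact h1
    · apply cov_tr
      exact (v_cov (hF.pg q.1 q.2) hab).1
  · rintro (_ | q)
    · have h1 : (⟨pn E' ⊤, hvn ⊤⟩ : Tr L r) = ⟨⊤, Or.inr rfl⟩ := Subtype.ext (pn_univ E')
      change _ ≤ Order.height (⟨pn E' ⊥, hvn ⊥⟩ : Tr L r) +
        Order.height (⟨pn E' ⊤, hvn ⊤⟩ : Tr L r)
      rw [h1]
      exact le_add_left (le_refl _)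
    · have h1 := hrk q.1 q.2
      have h2 := height_low (r := r) (rk q.1.1) ⟨v q.1 ⊥, hvs q ⊥⟩
        (htop _ (hsome q ⊥).1) (congrArg rk (v_bot q.1))
      have h3 := height_low (r := r) (rk (jn q.1.1 q.1.2)) ⟨v q.1 ⊤, hvs q ⊤⟩
        (htop _ (hsome q ⊤).1) (congrArg rk (v_top q.1))
      refine (height_top (r := r) (Or.inr rfl)).trans ?_
      refine le_trans ?_ (add_le_add h2 h3)
      exact_mod_cast h1
  · intro x
    by_cases hx : x.1 = ⊤
    · refine ⟨none, Set.univ, Subtype.ext ?_⟩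
      change pn E' Set.univ = x.1
      rw [pn_univ, hx]
    · have h1 := rk_of_tr x hx
      by_cases h2 : El (⊥, E') x.1
      · obtain ⟨S, hS⟩ := el_v h2
        change Set (Fin E'.card) at S
        have h3 : S ≠ Set.univ := by
          rintro rfl
          rw [← hS, huniv] at h1
          omega
        refine ⟨none, S, Subtype.ext ?_⟩
        change pn E' S = x.1
        rw [pn_ne E' h3, hS]
      · obtain ⟨q, hqq, hz⟩ := (hF.cov x.1).mp ⟨by omega, h2⟩
        obtain ⟨S, hS⟩ := el_v hz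
        exact ⟨some ⟨q, hqq⟩, S, Subtype.ext hS⟩
  · intro o S o' S' h
    exact hinj o S o' S' (congrArg Subtype.val h)

end main

end Pool.Agent.Helper50.TW
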