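import Pool.Agent.Helper19.TW.Base
import Pool.Agent.Helper28.BPack.Main

/-!
# Locally free lifts
-/

set_option autoImplicit false
set_option linter.unusedSectionVars false

namespace Pool.Agent.Helper50.TW

open Pool.Agent.Helper28.BPack Pool.Agent.Helper19.TW

section ici

variable {L : Type} [Lattice L] [BoundedOrder L]

theorem ici_cov {e : L} {x y : Set.Ici e} : x ⋖ y ↔ (x : L) ⋖ (y : L) := by
  constructor
  · intro h
    refine ⟨h.lt, fun z h1 h2 => ?_⟩
    have h3 : e ≤ z := le_trans x.2 h1.le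
    exact h.2 (show x < ⟨z, h3⟩ from h1) (show (⟨z, h3⟩ : Set.Ici e) < y from h2)
  · intro h
    exact ⟨h.lt, fun z h1 h2 => h.2 (show (x : L) < z from h1) (show (z : L) < y from h2)⟩

theorem ici_um [IsUpperModularLattice L] (e : L) : IsUpperModularLattice (Set.Ici e) := by
  constructor
  intro a b h
  rw [ici_cov] at h ⊢
  exact covBy_sup_of_inf_covBy_left (a := (a : L)) (b := (b : L)) h

theorem ici_sup {e : L} {ι : Type} (B : Finset ι) (a : ι → Set.Ici e) (b : ι → L)
    (h : ∀ j, (a j : L) = e ⊔ b j) : ((B.sup a : Set.Ici e) : L) = e ⊔ B.sup b := by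
  classical
  induction B using Finset.induction_on with
  | empty =>
    rw [Finset.sup_empty, Finset.sup_empty, sup_bot_eq]
    rfl
  | insert k B _ ih =>
    rw [Finset.sup_insert, Finset.sup_insert]
    change (a k : L) ⊔ ((B.sup a : Set.Ici e) : L) = _
    rw [ih, h k, sup_sup_sup_comm, sup_idem]

theorem ici_atomistic [Finite L] [IsUpperModularLattice L]
    (hat : ∀ x : L, ∃ s : Finset L, (∀ a ∈ s, IsAtom a) ∧ s.sup id = x) (e : L)
    (x : Set.Ici e) : ∃ s : Finset (Set.Ici e), (∀ a ∈ s, IsAtom a) ∧ s.sup id = x := by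
  classical
  obtain ⟨t, ht, htx⟩ := hat (x : L)
  let g : L → Set.Ici e := fun a => ⟨e ⊔ a, le_sup_left⟩
  refine ⟨(t.filter (fun a => ¬ a ≤ e)).image g, ?_, ?_⟩
  · intro y hy
    obtain ⟨a, ha, rfl⟩ := Finset.mem_image.mp hy
    obtain ⟨ha1, ha2⟩ := Finset.mem_filter.mp ha
    rw [← bot_covBy_iff, ici_cov]
    exact covBy_sup_atom (ht a ha1) ha2
  · apply le_antisymm
    · apply Finset.sup_le
      intro y hy
      obtain ⟨a, ha, rfl⟩ := Finset.mem_image.mp hy
      obtain ⟨ha1, ha2⟩ := Finset.mem_filter.mp ha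
      change e ⊔ a ≤ (x : L)
      apply sup_le x.2
      rw [← htx]
      exact Finset.le_sup (f := id) ha1
    · change (x : L) ≤ (((t.filter (fun a => ¬ a ≤ e)).image g).sup id : Set.Ici e)
      rw [← htx]
      apply Finset.sup_le
      intro a ha
      by_cases hae : a ≤ e
      · exact hae.trans (((t.filter (fun a => ¬ a ≤ e)).image g).sup id : Set.Ici e).2
      · have h1 : g a ∈ (t.filter (fun a => ¬ a ≤ e)).image g :=
          Finset.mem_image_of_mem _ (Finset.mem_filter.mpr ⟨ha, hae⟩)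
        have h2 := Finset.le_sup (f := id) h1
        exact le_trans (le_sup_right : a ≤ e ⊔ a) h2

end ici

section main

variable {L : Type} [Lattice L] [BoundedOrder L] [Finite L] [IsUpperModularLattice L]

theorem ici_rk {e : L} (he : IsAtom e) : ∀ (m : ℕ) (z : Set.Ici e), rk (z : L) = m →
    rk (z : L) = rk z + 1 := by
  have := ici_um e
  intro m
  induction m with
  | zero =>
    intro z hz
    exfalso
    have h1 : (⊥ : L) < z := lt_of_lt_of_le he.bot_lt z.2
    have h2 := rk_lt h1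
    omega
  | succ m ih =>
    intro z hz
    by_cases hze : z = ⊥
    · rw [hze, rk_bot]
      change rk e = 0 + 1
      have h1 := rk_covBy he.bot_covBy
      rw [rk_bot] at h1
      exact h1
    · obtain ⟨w, -, hw⟩ := exists_le_covBy_of_lt (bot_lt_iff_ne_bot.mpr hze)
      have h1 := rk_covBy hw
      have h2 := rk_covBy (ici_cov.mp hw)
      have h3 := ih w (by omega)
      omega

/-- A packing of the interval above an atom, in the internal format. -/
theorem hasPack_ici (hat : ∀ x : L, ∃ s : Finset L, (∀ a ∈ s, IsAtom a) ∧ s.sup id = x)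
    {e : L} (he : IsAtom e) (h : BooleanPacking (Set.Ici e) ⟨⊤, le_top⟩) : HasPack e := by
  classical
  have := ici_um e
  obtain ⟨t, n, φ, hinj, hcov, hht, huniq⟩ := h
  choose a ha hval using fun i => exists_atoms (ici_atomistic hat e) (φ i) (hinj i) (hcov i)
  have hb : ∀ (i : Fin t) (k : Fin (n i)), ∃ b : L, IsAtom b ∧ (a i k : L) = e ⊔ b := by
    intro i k
    have h1 := ici_cov.mp (bot_covBy_iff.mpr (ha i k))
    change e ⋖ (a i k : L) at h1
    obtain ⟨s, hs, hsx⟩ := hat (a i k : L)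
    have h2 : ∃ b ∈ s, ¬ b ≤ e := by
      by_contra hc
      push Not at hc
      have h3 : (a i k : L) ≤ e := by
        rw [← hsx]
        exact Finset.sup_le hc
      exact absurd h1.lt (not_lt_of_ge h3)
    obtain ⟨b, hbs, hbe⟩ := h2
    refine ⟨b, hs b hbs, ?_⟩
    have h4 : e < e ⊔ b := lt_of_le_of_ne le_sup_left (fun h => hbe (h ▸ le_sup_right))
    have h5 : e ⊔ b ≤ (a i k : L) := sup_le h1.le (hsx ▸ Finset.le_sup (f := id) hbs)
    rcases h5.lt_or_eq with h6 | h6
    · exact absurd h6 (h1.2 h4)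
    · exact h6.symm
  choose b hbat hab using hb
  let p : Fin t → Pc L := fun i => ⟨(φ i ∅ : L), n i, b i⟩
  have hpv : ∀ (i : Fin t) (B : Finset (Fin (n i))),
      (p i).val B = ((φ i (B : Set (Fin (n i))) : Set.Ici e) : L) := by
    intro i B
    rw [(hval i B).1]
    change (φ i ∅ : L) ⊔ B.sup (b i) = (φ i ∅ : L) ⊔ ((B.sup (a i) : Set.Ici e) : L)
    rw [ici_sup B (a i) (b i) (hab i), ← sup_assoc,
      sup_eq_left.mpr (show e ≤ (φ i ∅ : L) from (φ i ∅).2)]
  have hprk : ∀ (i : Fin t) (B : Finset (Fin (n i))),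
      rk ((p i).val B) = rk (φ i ∅) + B.card + 1 := by
    intro i B
    rw [hpv, ici_rk he _ _ rfl, (hval i B).2]
  have hgood : ∀ i, (p i).Good := by
    intro i
    refine ⟨hbat i, ?_⟩
    intro B j hj hle
    have h1 := (p i).val_insert B j
    rw [sup_eq_left.mpr hle] at h1
    have h2 := hprk i B
    have h3 := hprk i (insert j B)
    rw [h1] at h3
    rw [Finset.card_insert_of_notMem hj] at h3
    omega
  refine ⟨Fin t, inferInstance, p, hgood, fun i => (φ i ∅).2, ?_, ?_, ?_⟩
  · intro i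
    have h1 : rk (⊤ : L) = rk (⊤ : Set.Ici e) + 1 := ici_rk he _ (⊤ : Set.Ici e) rfl
    have h2 : rk e = 1 := by
      have h3 := rk_covBy he.bot_covBy
      rw [rk_bot] at h3
      exact h3
    have h3 := hprk i ∅
    rw [Pc.val_empty, Finset.card_empty] at h3
    have h4 := hprk i Finset.univ
    have h5 := (hval i Finset.univ).2
    have h6 := hht i
    rw [← coe_rk, ← coe_rk, ← coe_rk] at h6
    have h7 : rk (⊤ : Set.Ici e) ≤ rk (φ i ⊥) + rk (φ i ⊤) := by exact_mod_cast h6
    have h8 : rk (φ i ⊤) = rk (φ i ∅) + (Finset.univ : Finset (Fin (n i))).card := by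
      rw [← h5, Finset.coe_univ]
      rfl
    have h9 : rk (φ i ⊥) = rk (φ i ∅) := rfl
    change rk (⊤ : L) + rk e ≤ rk (p i).x + rk ((p i).val Finset.univ)
    omega
  · intro z hz
    obtain ⟨⟨i, S⟩, hS, -⟩ := huniq ⟨z, hz⟩
    refine ⟨i, Finset.univ.filter (fun k => k ∈ S), ?_⟩
    rw [hpv]
    have h1 : ((Finset.univ.filter (fun k => k ∈ S) : Finset (Fin (n i))) :
        Set (Fin (n i))) = S := by ext k; simp
    rw [h1]
    exact congrArg Subtype.val hS
  · intro i B i' B' hB
    have hB2 : (φ i (B : Set (Fin (n i))) : L) = φ i' (B' : Set (Fin (n i'))) := by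
      rw [← hpv, ← hpv]
      exact hB
    have h1 : φ i (B : Set (Fin (n i))) = φ i' (B' : Set (Fin (n i'))) := Subtype.ext hB2
    obtain ⟨p0, -, hp0⟩ := huniq (φ i (B : Set (Fin (n i))))
    have h2 := hp0 ⟨i, (B : Set (Fin (n i)))⟩ rfl
    have h3 := hp0 ⟨i', (B' : Set (Fin (n i')))⟩ h1.symm
    have h4 := h2.trans h3.symm
    have h5 : i = i' := congrArg Sigma.fst h4
    subst h5
    refine ⟨rfl, heq_of_eq ?_⟩
    have h6 : (B : Set (Fin (n i))) = B' := eq_of_heq (Sigma.mk.inj h4).2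
    exact_mod_cast h6

end main

/-- **Locally free lifts**: a packing of the interval above a locally free atom lifts. -/
theorem lift_packing {L : Type} [Lattice L] [BoundedOrder L] [Fintype L]
    [IsUpperModularLattice L]
    (hat : ∀ x : L, ∃ s : Finset L, (∀ a ∈ s, IsAtom a) ∧ s.sup id = x) (e : L) (he : IsAtom e)
    (hfree : ∀ C : Finset L, (∀ b ∈ C, IsAtom b ∧ ¬ e ≤ b) → e ≤ C.sup id →
      Order.height (⊤ : L) + 2 ≤ 2 * (C.card : ℕ∞))
    (h : BooleanPacking (Set.Ici e) ⟨⊤, le_top⟩) : BooleanPacking L ⊤ := by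
  have h1 := hasPack_ici hat he h
  have hF : Free (⊥ : L) e := by
    intro C hC1 hC2 hle
    rw [bot_sup_eq] at hle
    have h2 := hfree C (fun b hb => ⟨hC1 b hb, by simpa using hC2 b hb⟩) hle
    rw [← coe_rk] at h2
    rw [rk_bot, add_zero]
    exact_mod_cast h2
  have hne : ¬ e ≤ (⊥ : L) := fun hh => he.1 (le_bot_iff.mp hh)
  have h2 : HasPack ((⊥ : L) ⊔ e) := by rwa [bot_sup_eq]
  exact (HasPack.lift hat he hne hF h2).to_packing

end Pool.Agent.Helper50.TW
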